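import Pool.Agent.Helper53.KC.Goals

namespace Pool.Agent.Helper67.KC

open Pool.Agent.Helper53.KC

theorem finite_matroid (n : ℕ) : Finite (Matroid (Fin n)) := by
  have h : Function.Injective fun M : Matroid (Fin n) => (M.E, {B : Set (Fin n) | M.IsBase B}) := by
    intro M M' h
    have h1 : M.E = M'.E := congrArg Prod.fst h
    have h2 : {B : Set (Fin n) | M.IsBase B} = {B : Set (Fin n) | M'.IsBase B} :=
      congrArg Prod.snd h
    refine Matroid.ext_isBase h1 fun B _ => ?_
    exact Set.ext_iff.mp h2 B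
  exact Finite.of_injective _ h

theorem mem_cls {n : ℕ} (M : Matroid (Fin n)) : M ∈ cls M :=
  ⟨Equiv.refl _, by
    refine Matroid.ext_isBase (by simp) fun B _ => ?_
    rw [Matroid.mapEquiv_isBase_iff]
    simp⟩

theorem cls_eq_range {n : ℕ} (M : Matroid (Fin n)) :
    cls M = Set.range fun σ : Equiv.Perm (Fin n) => M.mapEquiv σ := by
  ext M'
  constructor
  · rintro ⟨σ, rfl⟩; exact ⟨σ, rfl⟩
  · rintro ⟨σ, rfl⟩; exact ⟨σ, rfl⟩

theorem ncard_cls {n : ℕ} (M : Matroid (Fin n)) : (cls M).ncard ≤ n.factorial := by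
  rw [cls_eq_range, ← Set.image_univ]
  refine (Set.ncard_image_le (Set.toFinite _)).trans ?_
  rw [Set.ncard_univ, Nat.card_eq_fintype_card, Fintype.card_perm, Fintype.card_fin]

theorem unl : UnlStmt := by
  classical
  intro n P hP
  have := finite_matroid n
  have : Fintype (Matroid (Fin n)) := Fintype.ofFinite _
  refine ⟨?_, ?_, ?_, ?_⟩
  · unfold numLab numUnl
    set A : Set (Matroid (Fin n)) := {M | M ∈ Lab n ∧ True} with hA
    have hfin : A.Finite := Set.toFinite _
    have h1 := Finset.card_le_mul_card_image (f := cls) hfin.toFinset n.factorial (by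
      intro c hc
      rw [Finset.mem_image] at hc
      obtain ⟨M0, _, rfl⟩ := hc
      have h2 : ((hfin.toFinset.filter fun M => cls M = cls M0 : Finset _) : Set (Matroid (Fin n)))
          ⊆ cls M0 := by
        intro M hM
        simp only [Finset.coe_filter, Set.mem_ofPred_eq] at hM
        rw [← hM.2]
        exact mem_cls M
      have h3 := Set.ncard_le_ncard h2 (Set.toFinite _)
      rw [Set.ncard_coe_finset] at h3
      exact h3.trans (ncard_cls M0))
    have h4 : A.ncard = hfin.toFinset.card := Set.ncard_eq_toFinset_card _ hfin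
    have h5 : (cls '' A).ncard = (hfin.toFinset.image cls).card := by
      rw [← Set.ncard_coe_finset, Finset.coe_image, Set.Finite.coe_toFinset]
    rw [h4, h5]
    exact h1
  · unfold numUnl numLab
    have h1 : cls '' {M | M ∈ Lab n ∧ True} ⊆
        cls '' {M | M ∈ Lab n ∧ P M} ∪ cls '' {M | M ∈ Lab n ∧ ¬ P M} := by
      rintro _ ⟨M, ⟨hM, _⟩, rfl⟩
      by_cases h : P M
      · exact Or.inl ⟨M, ⟨hM, h⟩, rfl⟩
      · exact Or.inr ⟨M, ⟨hM, h⟩, rfl⟩
    have h2 := Set.ncard_le_ncard h1 (Set.toFinite _)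
    have h3 := Set.ncard_union_le (cls '' {M | M ∈ Lab n ∧ P M}) (cls '' {M | M ∈ Lab n ∧ ¬ P M})
    have h4 := Set.ncard_image_le (f := cls) (s := {M | M ∈ Lab n ∧ ¬ P M}) (Set.toFinite _)
    exact h2.trans (h3.trans (Nat.add_le_add_left h4 _))
  · unfold numUnl
    refine Set.ncard_le_ncard ?_ (Set.toFinite _)
    rintro _ ⟨M, ⟨hM, _⟩, rfl⟩
    exact ⟨M, ⟨hM, trivial⟩, rfl⟩
  · unfold numLab
    rw [← Set.ncard_union_eq]
    · congr 1
      ext M
      simp only [Set.mem_ofPred_eq, Set.mem_union]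
      tauto
    · rw [Set.disjoint_left]
      rintro M ⟨_, h1⟩ ⟨_, h2⟩
      exact h2 h1

end Pool.Agent.Helper67.KC
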